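import Pool.Agent.Helper35.GF.Stm

/-! Package FS: a free sequence whose first terms generate a given finite set. -/

namespace Pool.Agent.Helper92.GF

open Set Module Pool.Agent.Helper35.EM Pool.Agent.Helper35.GF

theorem fs : S_Free := by
  intro A hA
  obtain ⟨I, hIA⟩ := M.exists_isBasis A (by intro x _; exact mem_univ x)
  have hIfin : I.Finite := hA.subset hIA.subset
  obtain ⟨B, hB, hIB⟩ := hIA.indep.exists_isBase_superset
  have hinf : B.Infinite := by
    intro hfin
    have h1 : (M.closure B).Countable := countable_closure hfin.countable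
    have h2 : M.closure B = univ := hB.closure_eq
    rw [h2] at h1
    exact not_countable_complex h1
  have hinf2 : (B \ I).Infinite := hinf.sdiff hIfin
  have : Infinite ↥(B \ I) := hinf2.to_subtype
  let f := Infinite.natEmbedding ↥(B \ I)
  have : Finite ↥I := hIfin.to_subtype
  obtain ⟨N, ⟨e⟩⟩ := Finite.exists_equiv_fin ↥I
  obtain ⟨t, ht⟩ : ∃ t : ℕ → ℂ, t = fun n => if h : n < N then ((e.symm ⟨n, h⟩ : ↥I) : ℂ)
      else ((f (n - N) : ↥(B \ I)) : ℂ) := ⟨_, rfl⟩
  have t1 : ∀ n (h : n < N), t n = ((e.symm ⟨n, h⟩ : ↥I) : ℂ) := fun n h => by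
    rw [ht]; simp only [h, dif_pos]
  have t2 : ∀ n, ¬ n < N → t n = ((f (n - N) : ↥(B \ I)) : ℂ) := fun n h => by
    rw [ht]; simp only [h, dif_neg, not_false_eq_true]
  have hmem : ∀ n, t n ∈ B := by
    intro n
    by_cases h : n < N
    · rw [t1 n h]; exact hIB (e.symm ⟨n, h⟩).2
    · rw [t2 n h]; exact (f (n - N)).2.1
  have hne : ∀ k n, k < n → t k ≠ t n := by
    intro k n hkn heq
    by_cases hn : n < N
    · have hk : k < N := hkn.trans hn
      rw [t1 n hn, t1 k hk] at heq
      have h3 := e.symm.injective (Subtype.ext heq)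
      have h4 : k = n := congrArg Fin.val h3
      omega
    · by_cases hk : k < N
      · rw [t2 n hn, t1 k hk] at heq
        have h5 := (f (n - N)).2.2
        rw [← heq] at h5
        exact h5 (e.symm ⟨k, hk⟩).2
      · rw [t2 n hn, t2 k hk] at heq
        have h3 := f.injective (Subtype.ext heq)
        omega
  refine ⟨t, N, fun n hn => ?_, ?_⟩
  · have h1 : t n ∉ M.closure (B \ {t n}) := hB.indep.notMem_closure_sdiff_of_mem (hmem n)
    apply h1
    refine cl_mono ?_ hn
    rintro _ ⟨k, hk, rfl⟩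
    exact ⟨hmem k, hne k n hk⟩
  · have h1 : I ⊆ t '' Iio N := by
      intro x hx
      refine ⟨(e ⟨x, hx⟩ : Fin N), (e ⟨x, hx⟩).2, ?_⟩
      rw [t1 _ (e ⟨x, hx⟩).2]
      simp
    exact hIA.subset_closure.trans (cl_mono h1)

end Pool.Agent.Helper92.GF
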